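import Pool.Agent.MVS.Stmts

/-!
# MVS: BR3, the volume bridge (helper23)
-/

noncomputable section

open scoped ContDiff Topology RealInnerProductSpace
open Set MeasureTheory

namespace Pool.Agent.MVS.H23

open Pool.Agent.RF Pool.Agent.SecondKind Pool.Agent.MinVolSphere Pool.Agent.MVS

theorem vc_apply (x : Fin 5 → ℝ) (i : Fin 5) : (vc x) i = x i := rfl

theorem inner_vc (x y : Fin 5 → ℝ) : ⟪vc x, vc y⟫ = ∑ i, x i * y i := by
  rw [PiLp.inner_apply]
  refine Finset.sum_congr rfl fun i _ => ?_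
  rw [vc_apply, vc_apply]
  simp [mul_comm]

theorem tang_tangent (x : Fin 5 → ℝ) (hx : OnSphere x) (i : Fin 5) : Tangent x (tang x i) := by
  refine ⟨hx, ?_⟩
  have h : ∑ j, x j * tang x i j = x i - x i * ∑ j, x j ^ 2 := by
    simp only [tang, mul_sub, Finset.sum_sub_distrib, Finset.mul_sum]
    congr 1
    · simp
    · exact Finset.sum_congr rfl fun j _ => by ring
  have hx' : ∑ j, x j ^ 2 = 1 := hx
  rw [h, hx']; ring

theorem eb_eq (x : Fin 5 → ℝ) (i : Fin 5) : eb i = vc (tang x i) + x i • vc x := by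
  ext j
  simp only [PiLp.add_apply, PiLp.smul_apply, vc_apply, smul_eq_mul, tang, eb,
    PiLp.single_apply, EuclideanSpace.single_apply]
  by_cases h : j = i
  · subst h; simp
  · simp [h, Ne.symm h]

theorem density_eq {g : Form 4} {G : E5 → Bil E5} (hG : IsCyl G)
    (hg : ∀ x v w : Fin 5 → ℝ, Tangent x v → Tangent x w → G (vc x) (vc v) (vc w) = g x v w)
    {x : Fin 5 → ℝ} (hx : OnSphere x) : density g x = sd (G (vc x)) := by
  have hx' : ∑ j, x j ^ 2 = 1 := hx
  have hn : ⟪vc x, vc x⟫ = 1 := by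
    rw [inner_vc, ← hx']; exact Finset.sum_congr rfl fun j _ => by ring
  have hn2 : ‖vc x‖ ^ 2 = 1 := by rw [← real_inner_self_eq_norm_sq, hn]
  have h0 : vc x ∈ Om (Fin 5) := by
    intro h
    rw [h] at hn2; simp at hn2
  have hr : ∀ w, G (vc x) (vc x) w = ⟪vc x, w⟫ := by
    intro w; rw [hG.radial _ h0, hn2, div_one]
  have ht : ∀ i, ⟪vc x, vc (tang x i)⟫ = 0 := by
    intro i; rw [inner_vc]; exact (tang_tangent x hx i).2
  unfold density sd gm
  congr 2
  ext i j
  simp only [Matrix.of_apply]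
  rw [eb_eq x i, eb_eq x j]
  simp only [map_add, ContinuousLinearMap.add_apply, map_smul, ContinuousLinearMap.smul_apply,
    smul_eq_mul]
  rw [hr, hr, hG.metric.symm _ h0 (vc (tang x i)) (vc x), hr, ht, ht, hn,
    hg _ _ _ (tang_tangent x hx i) (tang_tangent x hx j)]
  ring

theorem sd_smul {G : E5 → Bil E5} (hG : IsCyl G) {x : E5} (hx : x ∈ Om (Fin 5)) {c : ℝ}
    (hc : 0 < c) : sd (G (c • x)) = (c ^ 5)⁻¹ * sd (G x) := by
  unfold sd
  have h : gm (G (c • x)) = (c ^ 2)⁻¹ • gm (G x) := by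
    ext i j
    simp [gm, hG.homog c hc x hx]
  rw [h, Matrix.det_smul, Fintype.card_fin, Real.sqrt_mul (by positivity)]
  congr 1
  rw [Real.sqrt_eq_iff_mul_self_eq (by positivity) (by positivity)]
  rw [← mul_inv, ← inv_pow]
  ring

theorem radial_int : ∫ r : Ioi (0 : ℝ), (if 1 < r.1 ∧ r.1 < Real.exp 1 then (r.1 ^ 5)⁻¹ else 0)
    ∂(Measure.volumeIoiPow 4) = 1 := by
  simp only [Measure.volumeIoiPow, ENNReal.ofReal]
  rw [integral_withDensity_eq_integral_smul
    ((measurable_subtype_coe.pow_const _).real_toNNReal)]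
  rw [integral_subtype_comap measurableSet_Ioi (fun a : ℝ => Real.toNNReal (a ^ 4) •
    (if 1 < a ∧ a < Real.exp 1 then (a ^ 5)⁻¹ else 0))]
  have h1 : ∀ a ∈ Ioi (0 : ℝ), Real.toNNReal (a ^ 4) •
      (if 1 < a ∧ a < Real.exp 1 then (a ^ 5)⁻¹ else 0) =
      (Ioo 1 (Real.exp 1)).indicator (fun a => a⁻¹) a := by
    intro a ha
    have ha' : (0 : ℝ) < a := ha
    rw [NNReal.smul_def, Real.coe_toNNReal _ (by positivity)]
    by_cases h : 1 < a ∧ a < Real.exp 1
    · rw [if_pos h, indicator_of_mem (by exact h)]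
      simp only [smul_eq_mul]
      field_simp
    · rw [if_neg h, indicator_of_notMem (by exact h)]
      simp
  rw [setIntegral_congr_fun measurableSet_Ioi h1, setIntegral_indicator measurableSet_Ioo]
  have h2 : Ioi (0 : ℝ) ∩ Ioo 1 (Real.exp 1) = Ioo 1 (Real.exp 1) := by
    apply inter_eq_self_of_subset_right
    intro a ha; exact lt_trans one_pos ha.1
  rw [h2, ← integral_Ioc_eq_integral_Ioo, ← intervalIntegral.integral_of_le
    (by exact (Real.one_le_exp (by norm_num)))]
  rw [integral_inv_of_pos one_pos (Real.exp_pos 1)]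
  simp

theorem br3 : Br3Statement := by
  intro g G _ hG hg
  have hms : MeasurableSet (slab (Fin 5)) := by
    unfold slab
    exact (measurableSet_lt measurable_const measurable_norm).inter
      (measurableSet_lt measurable_norm measurable_const)
  rw [← integral_indicator hms]
  have e1 : ∫ x, (slab (Fin 5)).indicator (fun x => sd (G x)) x =
      ∫ x : ({(0)}ᶜ : Set E5), (slab (Fin 5)).indicator (fun x => sd (G x)) x.1
        ∂((volume : Measure E5).comap (↑)) := by
    rw [integral_subtype_comap (measurableSet_singleton _).compl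
      (fun x => (slab (Fin 5)).indicator (fun x => sd (G x)) x), restrict_compl_singleton]
  rw [e1]
  have hdim : Module.finrank ℝ E5 - 1 = 4 := by simp
  have e2 := (volume : Measure E5).measurePreserving_homeomorphUnitSphereProd.integral_comp
    (Homeomorph.measurableEmbedding _)
    (fun z : Metric.sphere (0 : E5) 1 × Ioi (0 : ℝ) =>
      density g (fun i => (z.1 : E5) i) *
        (if 1 < z.2.1 ∧ z.2.1 < Real.exp 1 then (z.2.1 ^ 5)⁻¹ else 0))
  rw [hdim] at e2
  rw [integral_prod_mul (fun x : Metric.sphere (0 : E5) 1 => density g (fun i => (x : E5) i))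
    (fun r : Ioi (0 : ℝ) => (if 1 < r.1 ∧ r.1 < Real.exp 1 then (r.1 ^ 5)⁻¹ else 0)),
    radial_int, mul_one] at e2
  unfold vol
  rw [← e2]
  refine integral_congr_ae (Filter.Eventually.of_forall fun x => ?_)
  simp only
  have hx0 : (x : E5) ≠ 0 := x.2
  have hpos : 0 < ‖(x : E5)‖ := norm_pos_iff.2 hx0
  rw [homeomorphUnitSphereProd_apply_snd_coe, homeomorphUnitSphereProd_apply_fst_coe]
  by_cases h : (x : E5) ∈ slab (Fin 5)
  · have h' : 1 < ‖(x : E5)‖ ∧ ‖(x : E5)‖ < Real.exp 1 := h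
    rw [indicator_of_mem h, if_pos h']
    set u : E5 := ‖(x : E5)‖⁻¹ • (x : E5) with hu
    have hun : ‖u‖ = 1 := by rw [hu, norm_smul, norm_inv, norm_norm, inv_mul_cancel₀ hpos.ne']
    have hu0 : u ∈ Om (Fin 5) := by
      intro h0; rw [h0] at hun; simp at hun
    have hux : (x : E5) = ‖(x : E5)‖ • u := by
      rw [hu, smul_smul, mul_inv_cancel₀ hpos.ne', one_smul]
    have hS : OnSphere (fun i => u i) := by
      have h3 : ‖u‖ ^ 2 = ∑ i, u i ^ 2 := by
        rw [EuclideanSpace.norm_sq_eq]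
        exact Finset.sum_congr rfl fun i _ => by rw [Real.norm_eq_abs, sq_abs]
      unfold OnSphere
      rw [← h3, hun]; norm_num
    have hv : vc (fun i => u i) = u := rfl
    rw [density_eq hG hg hS, hv]
    nth_rewrite 1 [hux]
    rw [sd_smul hG hu0 hpos]
    ring
  · have h' : ¬ (1 < ‖(x : E5)‖ ∧ ‖(x : E5)‖ < Real.exp 1) := h
    rw [indicator_of_notMem h, if_neg h', mul_zero]

end Pool.Agent.MVS.H23
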