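import Pool.Agent.MVS.Stmts
import Pool.Agent.Helper36_RF.Chr
import Pool.Agent.Helper5_RF.Cyl
import Pool.Agent.Helper5_RF.Common

/-!
# MVS: GBW, connection form and curvature in frames (helper23)
-/

noncomputable section

open scoped ContDiff Topology RealInnerProductSpace
set_option maxSynthPendingDepth 3
open Set

namespace Pool.Agent.MVS.H23

open Pool.Agent.RF Pool.Agent.RF.H5 Pool.Agent.MVS

/-! ## the cross product -/

theorem cr0 (u v : E3) : (cr u v) 0 = u 1 * v 2 - u 2 * v 1 := rfl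
theorem cr1 (u v : E3) : (cr u v) 1 = u 2 * v 0 - u 0 * v 2 := rfl
theorem cr2 (u v : E3) : (cr u v) 2 = u 0 * v 1 - u 1 * v 0 := rfl

theorem ext3 {u v : E3} (h0 : u 0 = v 0) (h1 : u 1 = v 1) (h2 : u 2 = v 2) : u = v := by
  ext i
  fin_cases i
  · exact h0
  · exact h1
  · exact h2

theorem cr_add_left (u u' v : E3) : cr (u + u') v = cr u v + cr u' v := by
  apply ext3 <;> simp only [cr0, cr1, cr2, PiLp.add_apply] <;> ring

theorem cr_smul_left (c : ℝ) (u v : E3) : cr (c • u) v = c • cr u v := by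
  apply ext3 <;> simp only [cr0, cr1, cr2, PiLp.smul_apply, smul_eq_mul] <;> ring

theorem cr_add_right (u v v' : E3) : cr u (v + v') = cr u v + cr u v' := by
  apply ext3 <;> simp only [cr0, cr1, cr2, PiLp.add_apply] <;> ring

theorem cr_smul_right (c : ℝ) (u v : E3) : cr u (c • v) = c • cr u v := by
  apply ext3 <;> simp only [cr0, cr1, cr2, PiLp.smul_apply, smul_eq_mul] <;> ring

theorem cr_jac (a b s : E3) : cr a (cr b s) - cr b (cr a s) = cr (cr a b) s := by
  apply ext3 <;> simp only [cr0, cr1, cr2, PiLp.sub_apply] <;> ring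

def crL : E3 →L[ℝ] E3 →L[ℝ] E3 :=
  LinearMap.toContinuousLinearMap
    (LinearMap.comp (LinearMap.toContinuousLinearMap : (E3 →ₗ[ℝ] E3) ≃ₗ[ℝ] _).toLinearMap
    (LinearMap.mk₂ ℝ cr cr_add_left cr_smul_left cr_add_right cr_smul_right))

theorem crL_apply (u v : E3) : crL u v = cr u v := rfl

variable {h : E3 → Bil E3} {A : E3 → (E3 →L[ℝ] E3)}

theorem A_inv (hh : IsCyl h) (hA : IsFrame3 h A) {x : E3} (hx : x ∈ Om (Fin 3)) :
    ContinuousLinearMap.IsInvertible (A x) := by
  have hinj : Function.Injective (A x : E3 →ₗ[ℝ] E3) := by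
    rw [injective_iff_map_eq_zero]
    intro v hv
    by_contra hne
    have h1 := hh.metric.pos x hx v hne
    have h2 : A x v = 0 := hv
    have h3 := hA.ortho x hx v v
    rw [h2, inner_zero_left] at h3
    linarith
  refine ⟨(LinearEquiv.ofInjectiveEndo (A x : E3 →ₗ[ℝ] E3) hinj).toContinuousLinearEquiv, ?_⟩
  apply ContinuousLinearMap.ext
  intro v
  rfl

/-- the connection matrix -/
def W (h : E3 → Bil E3) (A : E3 → (E3 →L[ℝ] E3)) (x v s : E3) : E3 :=
  A x (chris h x v ((A x).inverse s)) - fderiv ℝ A x v ((A x).inverse s)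

theorem W_add (x v s s' : E3) : W h A x v (s + s') = W h A x v s + W h A x v s' := by
  unfold W
  rw [map_add, chris_add_right, map_add, map_add]
  abel

theorem W_smul (x v : E3) (c : ℝ) (s : E3) : W h A x v (c • s) = c • W h A x v s := by
  unfold W
  rw [map_smul, chris_smul_right, map_smul, map_smul, smul_sub]

theorem W_addl (x v v' s : E3) : W h A x (v + v') s = W h A x v s + W h A x v' s := by
  unfold W
  rw [chris_add_left, map_add, map_add, ContinuousLinearMap.add_apply]
  abel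

theorem W_smull (x v : E3) (c : ℝ) (s : E3) : W h A x (c • v) s = c • W h A x v s := by
  unfold W
  rw [chris_smul_left, map_smul, map_smul, ContinuousLinearMap.smul_apply, smul_sub]

theorem W_apply (hh : IsCyl h) (hA : IsFrame3 h A) {x : E3} (hx : x ∈ Om (Fin 3)) (v t : E3) :
    W h A x v (A x t) = A x (chris h x v t) - fderiv ℝ A x v t := by
  unfold W
  have h1 : (A x).inverse (A x t) = t := by
    obtain ⟨e, he⟩ := A_inv hh hA hx
    rw [← he, ContinuousLinearMap.inverse_equiv]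
    exact e.symm_apply_apply t
  rw [h1]

theorem A_surj (hh : IsCyl h) (hA : IsFrame3 h A) {x : E3} (hx : x ∈ Om (Fin 3)) (s : E3) :
    ∃ t, A x t = s := by
  obtain ⟨e, he⟩ := A_inv hh hA hx
  refine ⟨e.symm s, ?_⟩
  rw [← he]
  exact e.apply_symm_apply s

theorem A_diff (hA : IsFrame3 h A) {x : E3} (hx : x ∈ Om (Fin 3)) : DifferentiableAt ℝ A x :=
  (hA.smooth.contDiffAt (om_isOpen.mem_nhds hx)).differentiableAt (by simp)

theorem W_skew (hh : IsCyl h) (hA : IsFrame3 h A) {x : E3} (hx : x ∈ Om (Fin 3)) (v s s' : E3) :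
    ⟪W h A x v s, s'⟫ = - ⟪s, W h A x v s'⟫ := by
  obtain ⟨t, rfl⟩ := A_surj hh hA hx s
  obtain ⟨t', rfl⟩ := A_surj hh hA hx s'
  rw [W_apply hh hA hx, W_apply hh hA hx, inner_sub_left, inner_sub_right, hA.ortho x hx,
    hA.ortho x hx]
  -- derivative of the orthogonality relation
  have hd := (A_diff hA hx).hasFDerivAt
  have h1 : HasFDerivAt (fun y => A y t) ((ContinuousLinearMap.apply ℝ E3 t).comp (fderiv ℝ A x)) x :=
    ((ContinuousLinearMap.apply ℝ E3 t).hasFDerivAt).comp x hd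
  have h2 : HasFDerivAt (fun y => A y t') ((ContinuousLinearMap.apply ℝ E3 t').comp (fderiv ℝ A x)) x :=
    ((ContinuousLinearMap.apply ℝ E3 t').hasFDerivAt).comp x hd
  have h3 := h1.inner ℝ h2
  have h4 : HasFDerivAt (fun y => h y t t')
      (((ContinuousLinearMap.apply ℝ ℝ t').comp (ContinuousLinearMap.apply ℝ (E3 →L[ℝ] ℝ) t)).comp
        (fderiv ℝ h x)) x := by
    have h40 := (cyl_diffAt hh hx).hasFDerivAt
    exact ((((ContinuousLinearMap.apply ℝ ℝ t').comp
      (ContinuousLinearMap.apply ℝ (E3 →L[ℝ] ℝ) t)).hasFDerivAt).comp x h40)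
  have h5 : (fun y => ⟪A y t, A y t'⟫) =ᶠ[𝓝 x] (fun y => h y t t') := by
    filter_upwards [om_isOpen.mem_nhds hx] with y hy
    exact hA.ortho y hy t t'
  have h6 := (h4.congr_of_eventuallyEq h5).unique h3
  have h7 := congrArg (fun L : E3 →L[ℝ] ℝ => L v) h6
  have h8 : fderiv ℝ h x v t t' = ⟪A x t, fderiv ℝ A x v t'⟫ + ⟪fderiv ℝ A x v t, A x t'⟫ := by
    simpa using h7
  -- metric compatibility
  have h9 := hh.metric.chris_spec hx v t t'
  have h10 := hh.metric.chris_spec hx v t' t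
  have h11 := hh.metric.fderiv_symm hx v t t'
  have h12 := hh.metric.fderiv_symm hx t v t'
  have h13 := hh.metric.fderiv_symm hx t' v t
  have h14 := hh.metric.symm x hx t (chris h x v t')
  rw [h14, h9, h10]
  linarith

/-- the axial vector -/
def omf (h : E3 → Bil E3) (A : E3 → (E3 →L[ℝ] E3)) (x v : E3) : E3 :=
  (W h A x v (eb 1)) 2 • eb 0 + (W h A x v (eb 2)) 0 • eb 1 + (W h A x v (eb 0)) 1 • eb 2

theorem eb_same (i : Fin 3) : (eb i : E3) i = 1 := by simp [eb]

theorem eb_ne {i j : Fin 3} (hij : j ≠ i) : (eb i : E3) j = 0 := by simp [eb, hij]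

theorem omf0 (x v : E3) : (omf h A x v) 0 = (W h A x v (eb 1)) 2 := by
  simp [omf, eb]

theorem omf1 (x v : E3) : (omf h A x v) 1 = (W h A x v (eb 2)) 0 := by
  simp [omf, eb]

theorem omf2 (x v : E3) : (omf h A x v) 2 = (W h A x v (eb 0)) 1 := by
  simp [omf, eb]

theorem inner_eb (i : Fin 3) (w : E3) : ⟪(eb i : E3), w⟫ = w i := by
  rw [eb, EuclideanSpace.inner_single_left]
  simp

theorem inner_eb' (i : Fin 3) (w : E3) : ⟪w, (eb i : E3)⟫ = w i := by
  rw [real_inner_comm, inner_eb]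

theorem cr_omf (hh : IsCyl h) (hA : IsFrame3 h A) {x : E3} (hx : x ∈ Om (Fin 3)) (v s : E3) :
    cr (omf h A x v) s = W h A x v s := by
  have hs : s = s 0 • eb 0 + s 1 • eb 1 + s 2 • eb 2 := by
    apply ext3 <;> simp [eb]
  have hsk : ∀ i j : Fin 3, (W h A x v (eb i)) j = - (W h A x v (eb j)) i := by
    intro i j
    have := W_skew hh hA hx v (eb i) (eb j)
    rwa [inner_eb', inner_eb] at this
  have h00 := hsk 0 0
  have h11 := hsk 1 1
  have h22 := hsk 2 2
  have h01 := hsk 0 1
  have h02 := hsk 0 2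
  have h12 := hsk 1 2
  have hW : W h A x v s = s 0 • W h A x v (eb 0) + s 1 • W h A x v (eb 1) +
      s 2 • W h A x v (eb 2) := by
    conv_lhs => rw [hs]
    rw [W_add, W_add, W_smul, W_smul, W_smul]
  rw [hW]
  apply ext3
  · rw [cr0, omf1, omf2]
    simp only [PiLp.add_apply, PiLp.smul_apply, smul_eq_mul]
    linear_combination (s 1) * (-h01) - s 0 * h00 / 2
  · rw [cr1, omf2, omf0]
    simp only [PiLp.add_apply, PiLp.smul_apply, smul_eq_mul]
    linear_combination (s 2) * (-h12) - s 1 * h11 / 2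
  · rw [cr2, omf0, omf1]
    simp only [PiLp.add_apply, PiLp.smul_apply, smul_eq_mul]
    linear_combination (s 0) * (-h02) - s 2 * h22 / 2

/-- the axial vector as a linear map -/
def omL (h : E3 → Bil E3) (A : E3 → (E3 →L[ℝ] E3)) (x : E3) : E3 →L[ℝ] E3 :=
  LinearMap.toContinuousLinearMap
    { toFun := omf h A x
      map_add' := fun v v' => by
        apply ext3
        · rw [omf0, W_addl]; simp only [PiLp.add_apply]; rw [omf0, omf0]
        · rw [omf1, W_addl]; simp only [PiLp.add_apply]; rw [omf1, omf1]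
        · rw [omf2, W_addl]; simp only [PiLp.add_apply]; rw [omf2, omf2]
      map_smul' := fun c v => by
        apply ext3
        · rw [omf0, W_smull]; simp only [PiLp.smul_apply, RingHom.id_apply]; rw [omf0]
        · rw [omf1, W_smull]; simp only [PiLp.smul_apply, RingHom.id_apply]; rw [omf1]
        · rw [omf2, W_smull]; simp only [PiLp.smul_apply, RingHom.id_apply]; rw [omf2] }

theorem omL_apply (x v : E3) : omL h A x v = omf h A x v := rfl

theorem W_smooth (hh : IsCyl h) (hA : IsFrame3 h A) (v s : E3) :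
    ContDiffOn ℝ ∞ (fun x => W h A x v s) (Om (Fin 3)) := by
  have hB : ContDiffOn ℝ ∞ (fun x => (A x).inverse) (Om (Fin 3)) := by
    intro q hq
    exact ((A_inv hh hA hq).contDiffAt_map_inverse).comp_contDiffWithinAt q (hA.smooth q hq)
  have hBs : ContDiffOn ℝ ∞ (fun x => (A x).inverse s) (Om (Fin 3)) :=
    hB.clm_apply contDiffOn_const
  have hc : ContDiffOn ℝ ∞ (fun x => chris h x v ((A x).inverse s)) (Om (Fin 3)) :=
    hh.metric.contDiffOn_chris.comp (s := Om (Fin 3))
      (f := fun y : E3 => (y, v, (A y).inverse s))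
      (contDiffOn_id.prodMk (contDiffOn_const.prodMk hBs)) (fun y hy => ⟨hy, trivial⟩)
  have hD : ContDiffOn ℝ ∞ (fun x => fderiv ℝ A x) (Om (Fin 3)) :=
    hA.smooth.fderiv_of_isOpen om_isOpen (by simp)
  exact (hA.smooth.clm_apply hc).sub ((hD.clm_apply contDiffOn_const).clm_apply hBs)

theorem omL_smooth (hh : IsCyl h) (hA : IsFrame3 h A) :
    ContDiffOn ℝ ∞ (omL h A) (Om (Fin 3)) := by
  rw [contDiffOn_clm_apply]
  intro v
  have hc : ∀ (i j : Fin 3), ContDiffOn ℝ ∞ (fun x => (W h A x v (eb i)) j) (Om (Fin 3)) :=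
    fun i j => (EuclideanSpace.proj j : E3 →L[ℝ] ℝ).contDiff.comp_contDiffOn
      (W_smooth hh hA v (eb i))
  exact (((hc 1 2).smul contDiffOn_const).add ((hc 2 0).smul contDiffOn_const)).add
    ((hc 0 1).smul contDiffOn_const)

theorem W_hom (hh : IsCyl h) (hA : IsFrame3 h A) {x : E3} (hx : x ∈ Om (Fin 3)) {c : ℝ}
    (hc : 0 < c) (v s : E3) : W h A (c • x) v s = c⁻¹ • W h A x v s := by
  have hcx := om_smul hc hx
  obtain ⟨t, rfl⟩ := A_surj hh hA hcx s
  rw [W_apply hh hA hcx]
  have h1 : A (c • x) t = A x (c⁻¹ • t) := by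
    rw [hA.hom c hc x hx, ContinuousLinearMap.smul_apply, map_smul]
  rw [h1, W_apply hh hA hx, cyl_chris_hom chrStatement hh hx hc]
  have h2 : fderiv ℝ A (c • x) v = (c⁻¹ * c⁻¹) • fderiv ℝ A x v :=
    hom_fderiv hc hx (fun y hy => hA.hom c hc y hy) (A_diff hA hx) (A_diff hA hcx) v
  rw [h2, hA.hom c hc x hx, chris_smul_right]
  simp only [map_smul, ContinuousLinearMap.smul_apply, smul_sub, smul_smul]

theorem omf_hom (hh : IsCyl h) (hA : IsFrame3 h A) {x : E3} (hx : x ∈ Om (Fin 3)) {c : ℝ}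
    (hc : 0 < c) (v : E3) : omf h A (c • x) v = c⁻¹ • omf h A x v := by
  apply ext3
  · rw [omf0, W_hom hh hA hx hc]; simp only [PiLp.smul_apply]; rw [omf0]
  · rw [omf1, W_hom hh hA hx hc]; simp only [PiLp.smul_apply]; rw [omf1]
  · rw [omf2, W_hom hh hA hx hc]; simp only [PiLp.smul_apply]; rw [omf2]

/-- first derivative of the frame -/
theorem dA (hh : IsCyl h) (hA : IsFrame3 h A) {x : E3} (hx : x ∈ Om (Fin 3)) (v t : E3) :
    fderiv ℝ A x v t = A x (chris h x v t) - cr (omf h A x v) (A x t) := by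
  rw [cr_omf hh hA hx, W_apply hh hA hx]
  abel

theorem radial_eq (hh : IsCyl h) (hA : IsFrame3 h A) {x : E3} (hx : x ∈ Om (Fin 3)) (v : E3) :
    cr (omf h A x v) (‖x‖⁻¹ • x) = - fderiv ℝ (fun y : E3 => ‖y‖⁻¹ • y) x v := by
  have h1 : HasFDerivAt (fun y : E3 => A y y) ((A x).comp (ContinuousLinearMap.id ℝ E3) +
      (fderiv ℝ A x).flip x) x := (A_diff hA hx).hasFDerivAt.clm_apply (hasFDerivAt_id x)
  have h2 : (fun y : E3 => ‖y‖⁻¹ • y) =ᶠ[𝓝 x] (fun y => A y y) := by
    filter_upwards [om_isOpen.mem_nhds hx] with y hy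
    exact (hA.radial y hy).symm
  have h3 := (h1.congr_of_eventuallyEq h2).fderiv
  rw [h3]
  simp only [ContinuousLinearMap.add_apply, ContinuousLinearMap.comp_apply,
    ContinuousLinearMap.id_apply, ContinuousLinearMap.flip_apply]
  rw [dA hh hA hx, cyl_chris_x chrStatement hh hx, hA.radial x hx, map_neg]
  abel

/-- second derivative -/
theorem second (hh : IsCyl h) (hA : IsFrame3 h A) {x : E3} (hx : x ∈ Om (Fin 3)) (u v t : E3) :
    fderiv ℝ A x u (chris h x v t) + A x (fderiv ℝ (fun y => chris h y v t) x u) -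
      fderiv ℝ (fderiv ℝ A) x u v t =
    cr (fderiv ℝ (fun y => omL h A y v) x u) (A x t) + cr (omf h A x v) (fderiv ℝ A x u t) := by
  have hAd := (A_diff hA hx).hasFDerivAt
  have hC : DifferentiableAt ℝ (fun y => chris h y v t) x := hh.metric.diffAt_chris hx v t
  have hA2 : DifferentiableAt ℝ (fderiv ℝ A) x :=
    (fd_contDiffAt (hA.smooth.contDiffAt (om_isOpen.mem_nhds hx))).differentiableAt (by simp)
  have hOm : DifferentiableAt ℝ (fun y => omL h A y v) x := by
    have h1 : DifferentiableAt ℝ (omL h A) x :=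
      ((omL_smooth hh hA).contDiffAt (om_isOpen.mem_nhds hx)).differentiableAt (by simp)
    exact h1.clm_apply (differentiableAt_const v)
  -- left side
  have h1 := hAd.clm_apply hC.hasFDerivAt
  have h2 := (hA2.hasFDerivAt.clm_apply (hasFDerivAt_const (𝕜 := ℝ) v x)).clm_apply
    (hasFDerivAt_const (𝕜 := ℝ) t x)
  have h3 := h1.sub h2
  -- right side
  have h4 : HasFDerivAt (fun y => A y t) ((A x).comp (0 : E3 →L[ℝ] E3) +
      (fderiv ℝ A x).flip t) x := hAd.clm_apply (hasFDerivAt_const (𝕜 := ℝ) t x)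
  have h5 := crL.hasFDerivAt_of_bilinear hOm.hasFDerivAt h4
  have h6 : (fun y => crL (omL h A y v) (A y t)) =ᶠ[𝓝 x]
      (fun y => A y (chris h y v t) - fderiv ℝ A y v t) := by
    filter_upwards [om_isOpen.mem_nhds hx] with y hy
    rw [crL_apply, omL_apply, cr_omf hh hA hy, W_apply hh hA hy]
  have h7 := (h3.congr_of_eventuallyEq h6).unique h5
  have h8 := congrArg (fun L : E3 →L[ℝ] E3 => L u) h7
  simp only [ContinuousLinearMap.add_apply, ContinuousLinearMap.sub_apply,
    ContinuousLinearMap.comp_apply, ContinuousLinearMap.flip_apply,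
    ContinuousLinearMap.zero_apply, map_zero, zero_add, add_zero,
    ContinuousLinearMap.precompR_apply, ContinuousLinearMap.precompL_apply,
    ContinuousLinearMap.compL_apply, crL_apply, omL_apply] at h8
  rw [add_comm (fderiv ℝ A x u (chris h x v t)), h8, add_comm]
  rfl

theorem gbw : GbwStatement := by
  intro h hh A hA
  refine ⟨omL h A, omL_smooth hh hA, ?_, ?_, ?_⟩
  · intro c hc x hx
    ext v : 1
    rw [ContinuousLinearMap.smul_apply, omL_apply, omL_apply, omf_hom hh hA hx hc]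
  · intro x hx v
    exact radial_eq hh hA hx v
  · intro x hx u v s
    have h1 := second hh hA hx u v s
    have h2 := second hh hA hx v u s
    have h3 := fd2_symm (hA.smooth.contDiffAt (om_isOpen.mem_nhds hx)) u v
    rw [h3] at h1
    unfold riem
    rw [map_sub, map_add, map_sub]
    have e1 := dA hh hA hx u (chris h x v s)
    have e2 := dA hh hA hx v (chris h x u s)
    have e3 : A x (chris h x v s) = fderiv ℝ A x v s + cr (omf h A x v) (A x s) := by
      rw [dA hh hA hx]; abel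
    have e4 : A x (chris h x u s) = fderiv ℝ A x u s + cr (omf h A x u) (A x s) := by
      rw [dA hh hA hx]; abel
    rw [e3, cr_add_right] at e1
    rw [e4, cr_add_right] at e2
    rw [e1] at h1
    rw [e2] at h2
    rw [cr_add_left, ← cr_jac]
    have e5 : cr (fderiv ℝ (fun y => omL h A y v) x u - fderiv ℝ (fun y => omL h A y u) x v)
        (A x s) = cr (fderiv ℝ (fun y => omL h A y v) x u) (A x s) -
          cr (fderiv ℝ (fun y => omL h A y u) x v) (A x s) := by
      rw [sub_eq_add_neg, cr_add_left, ← neg_one_smul ℝ, cr_smul_left, neg_one_smul, ← sub_eq_add_neg]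
    rw [e5, omL_apply, omL_apply]
    have h4 := congrArg₂ (fun a b : E3 => a - b) h1 h2
    rw [← sub_eq_zero] at h4 ⊢
    rw [← h4]
    abel

end Pool.Agent.MVS.H23
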